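import Pool.Agent.N236.UR.Stm
import Pool.Agent.N56.UB.POW

/-!
UR/EPOW (project UR of helper236): power maps on vectors. By helper106, from `t_POW` of helper56.
-/

set_option autoImplicit false

open Polynomial

namespace Pool.Agent.N106.UR

open Pool.Agent.N236.UB Pool.Agent.N236.UR Pool.Agent.N56.UB

section

variable {L : Type} [Field L] {v : AbsoluteValue L ℝ}

theorem val_max (hna : ∀ x y : L, v (x + y) ≤ max (v x) (v y)) {x y : L} (h : v x ≠ v y) :
    v (x - y) = max (v x) (v y) := by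
  rcases lt_or_gt_of_ne h with h1 | h1
  · rw [val_sub_eq' hna h1, max_eq_right h1.le]
  · rw [val_sub_eq hna h1, max_eq_left h1.le]

theorem val_nat_one (hna : ∀ x y : L, v (x + y) ≤ max (v x) (v y)) {p l : ℕ}
    (hp : v (p : L) < 1) (hcop : Nat.Coprime p l) : v (l : L) = 1 := by
  obtain ⟨a, b, hab⟩ : IsCoprime (p : ℤ) ((l : ℕ) : ℤ) := Nat.isCoprime_iff_coprime.mpr hcop
  have h2 := congrArg (fun z : ℤ => (z : L)) hab
  simp only [Int.cast_add, Int.cast_mul, Int.cast_natCast, Int.cast_one] at h2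
  have hint : ∀ z : ℤ, v (z : L) ≤ 1 := by
    intro z
    rcases Int.natAbs_eq z with h | h
    · rw [h, Int.cast_natCast]
      exact val_nat hna _
    · rw [h, Int.cast_neg, Int.cast_natCast, v.map_neg]
      exact val_nat hna _
  have hl1 : v (l : L) ≤ 1 := val_nat hna l
  by_contra hne
  have hlt : v (l : L) < 1 := lt_of_le_of_ne hl1 hne
  have h3 : v ((a : L) * p + b * l) ≤ max (v ((a : L) * p)) (v ((b : L) * l)) := hna _ _
  rw [h2, map_one, map_mul, map_mul] at h3
  have h4 : v (a : L) * v (p : L) < 1 :=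
    lt_of_le_of_lt (mul_le_of_le_one_left (v.nonneg _) (hint a)) hp
  have h5 : v (b : L) * v (l : L) < 1 :=
    lt_of_le_of_lt (mul_le_of_le_one_left (v.nonneg _) (hint b)) hlt
  exact absurd h3 (not_le.2 (max_lt h4 h5))

theorem val_sum_le (hna : ∀ x y : L, v (x + y) ≤ max (v x) (v y)) {s : Finset ℕ} {f : ℕ → L} {C : ℝ}
    (hC : 0 ≤ C) (h : ∀ i ∈ s, v (f i) ≤ C) : v (∑ i ∈ s, f i) ≤ C := by
  classical
  induction s using Finset.induction_on with
  | empty => simpa using hC
  | insert a s ha ih =>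
    rw [Finset.sum_insert ha]
    exact (hna _ _).trans (max_le (h _ (Finset.mem_insert_self _ _))
      (ih fun i hi => h i (Finset.mem_insert_of_mem hi)))

/-- the value of a difference of powers -/
theorem val_pow_sub {p q e l : ℕ} (hL : Loc v p q e) (hpp : p.Prime) (hl : 1 ≤ l) (hpl : ¬ p ∣ l)
    (hlq : Nat.Coprime l (q - 1)) (A B : L) :
    v (A ^ l - B ^ l) = v (A - B) * max (v A) (v B) ^ (l - 1) := by
  have hna := hL.1
  have hp := hL.2.2.1
  have hvl : v (l : L) = 1 := val_nat_one hna hp ((Nat.Prime.coprime_iff_not_dvd hpp).2 hpl)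
  have hS := t_POW L v p q e l hL hpp hl hpl hlq
  have key : ∀ x y : L, v x ^ (l - 1) * v (y - x) ≤ v (y ^ l - x ^ l) := by
    intro x y
    have h1 := hS x y 1 le_rfl
    rw [Polynomial.eval_pow, Polynomial.eval_pow, Polynomial.eval_X, Polynomial.eval_X,
      Polynomial.taylor_pow, Polynomial.taylor_X, Polynomial.coeff_X_add_C_pow, pow_one,
      Nat.choose_one_right, map_mul, hvl, mul_one, map_pow] at h1
    exact h1
  apply le_antisymm
  · have h1 := (Commute.all A B).geom_sum₂_mul l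
    rw [← h1, map_mul, mul_comm]
    refine mul_le_mul_of_nonneg_left ?_ (v.nonneg _)
    refine val_sum_le hna (pow_nonneg (le_max_of_le_left (v.nonneg _)) _) fun i hi => ?_
    have hi' := Finset.mem_range.1 hi
    rw [map_mul, map_pow, map_pow]
    have h2 : l - 1 = i + (l - 1 - i) := by omega
    calc v A ^ i * v B ^ (l - 1 - i) ≤ max (v A) (v B) ^ i * max (v A) (v B) ^ (l - 1 - i) :=
          mul_le_mul (pow_le_pow_left₀ (v.nonneg _) (le_max_left _ _) _)
            (pow_le_pow_left₀ (v.nonneg _) (le_max_right _ _) _) (pow_nonneg (v.nonneg _) _)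
            (pow_nonneg (le_max_of_le_left (v.nonneg _)) _)
      _ = max (v A) (v B) ^ (l - 1) := by rw [← pow_add, ← h2]
  · rcases le_total (v A) (v B) with h | h
    · rw [max_eq_right h, mul_comm]
      exact key B A
    · rw [max_eq_left h, mul_comm]
      have h1 := key A B
      have h2 : v (B - A) = v (A - B) := by rw [← v.map_neg, neg_sub]
      have h3 : v (B ^ l - A ^ l) = v (A ^ l - B ^ l) := by rw [← v.map_neg, neg_sub]
      rw [h2, h3] at h1
      exact h1

end

theorem real_four {a1 a2 b1 b2 c1 c2 d1 d2 : ℝ} (ha1 : 0 ≤ a1) (ha2 : 0 ≤ a2) (hb1 : 0 ≤ b1)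
    (hb2 : 0 ≤ b2) (hc1 : 0 ≤ c1) (hc2 : 0 ≤ c2) (hd1 : 0 ≤ d1) (hd2 : 0 ≤ d2)
    (h : max (a1 * c2) (a2 * c1) * max (b1 * d2) (b2 * d1) <
      max (a1 * b2) (a2 * b1) * max (c1 * d2) (c2 * d1)) :
    a1 * b2 ≠ a2 * b1 ∧ c1 * d2 ≠ c2 * d1 := by
  have k1 : (a2 * c1) * (b1 * d2) ≤ max (a1 * c2) (a2 * c1) * max (b1 * d2) (b2 * d1) :=
    mul_le_mul (le_max_right _ _) (le_max_left _ _) (mul_nonneg hb1 hd2)
      (le_max_of_le_left (mul_nonneg ha1 hc2))
  have k2 : (a1 * c2) * (b2 * d1) ≤ max (a1 * c2) (a2 * c1) * max (b1 * d2) (b2 * d1) :=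
    mul_le_mul (le_max_left _ _) (le_max_right _ _) (mul_nonneg hb2 hd1)
      (le_max_of_le_left (mul_nonneg ha1 hc2))
  constructor
  · intro he
    rcases le_total (c1 * d2) (c2 * d1) with h1 | h1
    · rw [max_eq_right h1, he, max_self, ← he] at h
      nlinarith [h, k2]
    · rw [max_eq_left h1, he, max_self] at h
      nlinarith [h, k1]
  · intro he
    rcases le_total (a1 * b2) (a2 * b1) with h1 | h1
    · rw [max_eq_right h1, he, max_self, ← he] at h
      nlinarith [h, k1]
    · rw [max_eq_left h1, he, max_self] at h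
      nlinarith [h, k2]

theorem t_epow : S_EPOW := by
  intro L _ v p q e l hL hpp hl hpl hlq
  refine ⟨fun x y => ?_, fun a b c d _ _ _ _ _ _ h => ?_⟩
  · have h1 : wd (pw l x) (pw l y) = (x.1 * y.2) ^ l - (x.2 * y.1) ^ l := by
      unfold wd pw
      rw [mul_pow, mul_pow]
    rw [h1, val_pow_sub hL hpp hl hpl hlq]
    rfl
  · by_contra hlt
    push Not at hlt
    have hna := hL.1
    have h1 := real_four (v.nonneg a.1) (v.nonneg a.2) (v.nonneg b.1) (v.nonneg b.2)
      (v.nonneg c.1) (v.nonneg c.2) (v.nonneg d.1) (v.nonneg d.2)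
      (by
        have h2 := hlt
        unfold mm at h2
        simpa only [map_mul] using h2)
    have hle : ∀ x y : L × L, v (wd x y) ≤ mm v x y := fun x y => val_sub_le hna _ _
    have hab : v (wd a b) = mm v a b := val_max hna (by rw [map_mul, map_mul]; exact h1.1)
    have hcd : v (wd c d) = mm v c d := val_max hna (by rw [map_mul, map_mul]; exact h1.2)
    have h3 : v (wd a c) * v (wd b d) ≤ mm v a c * mm v b d :=
      mul_le_mul (hle _ _) (hle _ _) (v.nonneg _) ((v.nonneg _).trans (hle _ _))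
    rw [hab, hcd] at h
    exact absurd (h.trans h3) (not_le.2 hlt)

end Pool.Agent.N106.UR
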